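import Mathlib

/-!
# MP_405fb9_co, Q1: a domination bicritical hypo-unique-domination graph

An explicit graph on twelve vertices with domination number 4.
-/

namespace Pool.Agent.Results.MP_405fb9_co.Bicritical

/-- `D` is a dominating set of `G`. -/
def Dom {V : Type} (G : SimpleGraph V) (D : Finset V) : Prop := ∀ v, v ∉ D → ∃ u ∈ D, G.Adj v u

/-- The domination number of `G`: the least size of a dominating set. -/
noncomputable def gamma {V : Type} (G : SimpleGraph V) : ℕ := sInf {k | ∃ D, Dom G D ∧ D.card = k}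

/-- `D` is a `γ`-set of `G`. -/
def IsGammaSet {V : Type} (G : SimpleGraph V) (D : Finset V) : Prop := Dom G D ∧ D.card = gamma G

/-- The graph `G - S`. -/
def del {V : Type} (G : SimpleGraph V) (S : Finset V) : SimpleGraph {x : V // x ∉ S} :=
  G.comap Subtype.val

/-- `G` has at least two `γ`-sets and every `G - v` has exactly one. -/
def HypoUD {V : Type} (G : SimpleGraph V) : Prop :=
  (∃ D D', D ≠ D' ∧ IsGammaSet G D ∧ IsGammaSet G D') ∧
    ∀ v : V, ∃! D, IsGammaSet (del G {v}) D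

/-- `γ(G - S) < γ(G)` for every set `S` of two vertices. -/
def DomBicritical {V : Type} (G : SimpleGraph V) : Prop :=
  ∀ S : Finset V, S.card = 2 → gamma (del G S) < gamma G

/-- adjacency table -/
def tab : List ℕ := [608, 388, 58, 2628, 644, 3077, 1033, 2066, 3074, 25, 352, 424]

def adjB (i j : Fin 12) : Bool := (tab.getD i.1 0).testBit j.1

/-- The graph. -/
def G : SimpleGraph (Fin 12) where
  Adj i j := adjB i j = true
  symm := ⟨by unfold adjB; decide +kernel⟩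
  loopless := ⟨by unfold adjB; decide +kernel⟩

/-- `D` is a dominating set of `G - R`. -/
def RD (R D : Finset (Fin 12)) : Prop :=
  (∀ v ∈ D, v ∉ R) ∧ ∀ v, v ∉ R → v ∉ D → ∃ u ∈ D, adjB v u = true

instance (R D : Finset (Fin 12)) : Decidable (RD R D) := by unfold RD; infer_instance

lemma dom_iff (R : Finset (Fin 12)) (D : Finset {x : Fin 12 // x ∉ R}) :
    Dom (del G R) D ↔ RD R (D.map (Function.Embedding.subtype _)) := by
  constructor
  · intro h
    refine ⟨?_, ?_⟩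
    · intro v hv
      obtain ⟨x, _, rfl⟩ := Finset.mem_map.1 hv
      exact x.2
    · intro v hv hvD
      obtain ⟨u, hu, ha⟩ := h ⟨v, hv⟩ (fun h' => hvD (Finset.mem_map.2 ⟨⟨v, hv⟩, h', rfl⟩))
      exact ⟨u.1, Finset.mem_map.2 ⟨u, hu, rfl⟩, ha⟩
  · rintro ⟨_, h⟩ v hv
    obtain ⟨u, hu, ha⟩ := h v.1 v.2 (fun h' => by
      obtain ⟨x, hx, hxv⟩ := Finset.mem_map.1 h'
      have : x = v := Subtype.ext hxv
      exact hv (this ▸ hx))
    obtain ⟨x, hx, rfl⟩ := Finset.mem_map.1 hu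
    exact ⟨x, hx, ha⟩

lemma exists_lift (R D : Finset (Fin 12)) (h : ∀ v ∈ D, v ∉ R) :
    ∃ D' : Finset {x : Fin 12 // x ∉ R}, D'.map (Function.Embedding.subtype _) = D := by
  refine ⟨D.subtype (fun x => x ∉ R), ?_⟩
  rw [Finset.subtype_map]
  exact Finset.filter_true_of_mem h

lemma RD_mono {R D D' : Finset (Fin 12)} (h : RD R D) (hs : D ⊆ D') (hR : ∀ v ∈ D', v ∉ R) :
    RD R D' :=
  ⟨hR, fun v hv hv' => by
    obtain ⟨u, hu, ha⟩ := h.2 v hv (fun x => hv' (hs x))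
    exact ⟨u, hs hu, ha⟩⟩

/-- a dominating set can be enlarged -/
lemma RD_extend {R D : Finset (Fin 12)} (h : RD R D) {m : ℕ} (h1 : D.card ≤ m)
    (h2 : m + R.card ≤ 12) : ∃ D', D'.card = m ∧ RD R D' := by
  have hsub : D ⊆ Rᶜ := fun v hv => Finset.mem_compl.2 (h.1 v hv)
  have hc : m ≤ (Rᶜ : Finset (Fin 12)).card := by
    rw [Finset.card_compl, Fintype.card_fin]; omega
  obtain ⟨D', hD1, hD2, hD3⟩ := Finset.exists_subsuperset_card_eq hsub h1 hc
  exact ⟨D', hD3, RD_mono h hD1 (fun v hv => Finset.mem_compl.1 (hD2 hv))⟩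

/-- the domination number of `G - R` from a dominating set of size `k` and the absence of
dominating sets of size `k - 1` -/
lemma gamma_eq {R W : Finset (Fin 12)} {k : ℕ} (hW : RD R W) (hk : W.card = k + 1)
    (hR : k + R.card ≤ 12) (hno : ∀ D ∈ Finset.powersetCard k (Finset.univ : Finset (Fin 12)), ¬ RD R D) :
    gamma (del G R) = k + 1 := by
  obtain ⟨W', hW'⟩ := exists_lift R W hW.1
  apply le_antisymm
  · apply Nat.sInf_le
    refine ⟨W', (dom_iff R W').2 (by rw [hW']; exact hW), ?_⟩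
    rw [← hk, ← hW', Finset.card_map]
  · have hne : {j | ∃ D, Dom (del G R) D ∧ D.card = j}.Nonempty :=
      ⟨W'.card, W', (dom_iff R W').2 (by rw [hW']; exact hW), rfl⟩
    obtain ⟨D, hD, hDc⟩ := Nat.sInf_mem hne
    by_contra hlt
    push Not at hlt
    have hDk : D.card ≤ k := by
      rw [hDc]
      unfold gamma at hlt
      omega
    obtain ⟨D', h1, h2⟩ := RD_extend ((dom_iff R D).1 hD) (m := k)
      (by rw [Finset.card_map]; exact hDk) hR
    exact hno D' (Finset.mem_powersetCard.2 ⟨Finset.subset_univ _, h1⟩) h2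

/-- the unique `γ`-sets of the graphs `G - v` -/
def W : Fin 12 → Finset (Fin 12) :=
  ![{3, 7, 10}, {4, 6, 11}, {7, 9, 10}, {0, 4, 8}, {1, 3, 5}, {4, 6, 8}, {1, 5, 9}, {0, 2, 8},
    {3, 5, 7}, {2, 6, 11}, {0, 2, 11}, {1, 9, 10}]

/-- closed neighbourhoods as bitmasks -/
def N (i : Fin 12) : ℕ := [609, 390, 62, 2636, 660, 3109, 1097, 2194, 3330, 537, 1376, 2472].getD i.1 0

lemma N_lt : ∀ i : Fin 12, N i < 2 ^ 12 := by decide +kernel

lemma N_bit : ∀ v u : Fin 12, v = u ∨ adjB v u = true → (N u).testBit v.1 = true := by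
  decide +kernel

lemma mask_full (M : ℕ) (h : M < 2 ^ 12) (h2 : ∀ v : Fin 12, M.testBit v.1 = true) :
    M = 4095 := by
  have h3 : ∀ i : Fin 12, (4095 : ℕ).testBit i.1 = true := by decide +kernel
  apply Nat.eq_of_testBit_eq
  intro i
  by_cases hi : i < 12
  · rw [h2 ⟨i, hi⟩, h3 ⟨i, hi⟩]
  · have h4 : (2 : ℕ) ^ 12 ≤ 2 ^ i := Nat.pow_le_pow_right (by norm_num) (by omega)
    rw [Nat.testBit_lt_two_pow (lt_of_lt_of_le h h4),
      Nat.testBit_lt_two_pow (lt_of_lt_of_le (by norm_num : (4095 : ℕ) < 2 ^ 12) h4)]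

lemma RD_bit {R D : Finset (Fin 12)} (h : RD R D) {v : Fin 12} (hv : v ∉ R) :
    ∃ u ∈ D, (N u).testBit v.1 = true := by
  by_cases hD : v ∈ D
  · exact ⟨v, hD, N_bit v v (Or.inl rfl)⟩
  · obtain ⟨u, hu, ha⟩ := h.2 v hv hD
    exact ⟨u, hu, N_bit v u (Or.inr ha)⟩

lemma F1m : ∀ a b c : Fin 12, N a ||| N b ||| N c ≠ 4095 := by decide +kernel

lemma F2m : ∀ v a b : Fin 12, N a ||| N b ||| 2 ^ v.1 ≠ 4095 := by decide +kernel

lemma F3m : ∀ v a b c : Fin 12, N a ||| N b ||| N c ||| 2 ^ v.1 = 4095 →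
    ({a, b, c} : Finset (Fin 12)) = W v := by decide +kernel

lemma F1 : ∀ D ∈ Finset.powersetCard 3 (Finset.univ : Finset (Fin 12)), ¬ RD ∅ D := by
  intro D hD h
  obtain ⟨a, b, c, _, _, _, rfl⟩ := Finset.card_eq_three.1 (Finset.mem_powersetCard.1 hD).2
  refine F1m a b c (mask_full _ (Nat.or_lt_two_pow (Nat.or_lt_two_pow (N_lt a) (N_lt b))
    (N_lt c)) fun v => ?_)
  obtain ⟨u, hu, hb⟩ := RD_bit h (Finset.notMem_empty v)
  rw [Nat.testBit_or, Nat.testBit_or]
  simp only [Finset.mem_insert, Finset.mem_singleton] at hu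
  rcases hu with rfl | rfl | rfl <;> simp [hb]

lemma pow_lt' (v : Fin 12) : 2 ^ v.1 < 2 ^ 12 := Nat.pow_lt_pow_right (by norm_num) v.2

lemma F2 : ∀ v : Fin 12, ∀ D ∈ Finset.powersetCard 2 (Finset.univ : Finset (Fin 12)),
    ¬ RD {v} D := by
  intro v D hD h
  obtain ⟨a, b, _, rfl⟩ := Finset.card_eq_two.1 (Finset.mem_powersetCard.1 hD).2
  refine F2m v a b (mask_full _ (Nat.or_lt_two_pow (Nat.or_lt_two_pow (N_lt a) (N_lt b))
    (pow_lt' v)) fun x => ?_)
  rw [Nat.testBit_or, Nat.testBit_or]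
  by_cases hx : x = v
  · subst hx; simp
  · obtain ⟨u, hu, hb⟩ := RD_bit h (by simpa using hx : x ∉ ({v} : Finset (Fin 12)))
    simp only [Finset.mem_insert, Finset.mem_singleton] at hu
    rcases hu with rfl | rfl <;> simp [hb]

lemma F3 : ∀ v : Fin 12, ∀ D ∈ Finset.powersetCard 3 (Finset.univ : Finset (Fin 12)),
    RD {v} D → D = W v := by
  intro v D hD h
  obtain ⟨a, b, c, _, _, _, rfl⟩ := Finset.card_eq_three.1 (Finset.mem_powersetCard.1 hD).2
  refine F3m v a b c (mask_full _ (Nat.or_lt_two_pow (Nat.or_lt_two_pow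
    (Nat.or_lt_two_pow (N_lt a) (N_lt b)) (N_lt c)) (pow_lt' v)) fun x => ?_)
  rw [Nat.testBit_or, Nat.testBit_or, Nat.testBit_or]
  by_cases hx : x = v
  · subst hx; simp
  · obtain ⟨u, hu, hb⟩ := RD_bit h (by simpa using hx : x ∉ ({v} : Finset (Fin 12)))
    simp only [Finset.mem_insert, Finset.mem_singleton] at hu
    rcases hu with rfl | rfl | rfl <;> simp [hb]

lemma F3' : ∀ v : Fin 12, RD {v} (W v) ∧ (W v).card = 3 := by
  decide +kernel

/-- dominating sets of the graphs `G - i - j`, as bitmasks -/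
def T : List (List ℕ) := [[0, 1048, 1160, 1168, 42, 280, 546, 268, 168, 2116, 14, 1538],
  [1048, 0, 2128, 273, 2081, 336, 2096, 261, 56, 2116, 2053, 1104],
  [1160, 2128, 0, 273, 2305, 336, 546, 769, 193, 1216, 2177, 1538],
  [1168, 273, 273, 0, 35, 273, 273, 261, 161, 273, 131, 273],
  [42, 2081, 2305, 35, 0, 74, 42, 261, 42, 42, 11, 67],
  [280, 336, 336, 273, 74, 0, 770, 261, 200, 194, 2053, 82],
  [546, 2096, 546, 273, 42, 770, 0, 261, 546, 38, 2053, 546],
  [268, 261, 769, 261, 261, 261, 261, 0, 37, 261, 261, 261],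
  [168, 56, 193, 161, 42, 200, 546, 37, 0, 196, 133, 1538],
  [2116, 2116, 1216, 273, 42, 194, 38, 261, 196, 0, 2053, 70],
  [14, 2053, 2177, 131, 11, 2053, 2053, 261, 133, 2053, 0, 7],
  [1538, 1104, 1538, 273, 67, 82, 546, 261, 1538, 70, 7, 0]]

def TD (i j : Fin 12) : Finset (Fin 12) :=
  Finset.univ.filter fun x => ((T.getD i.1 []).getD j.1 0).testBit x.1 = true

lemma F4m : ∀ i j : Fin 12, i ≠ j → RD {i, j} (TD i j) ∧ (TD i j).card = 3 := by
  decide +kernel

lemma F4 : ∀ S ∈ Finset.powersetCard 2 (Finset.univ : Finset (Fin 12)),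
    ∃ D ∈ Finset.powersetCard 3 (Finset.univ : Finset (Fin 12)), RD S D := by
  intro S hS
  obtain ⟨i, j, hij, rfl⟩ := Finset.card_eq_two.1 (Finset.mem_powersetCard.1 hS).2
  exact ⟨TD i j, Finset.mem_powersetCard.2 ⟨Finset.subset_univ _, (F4m i j hij).2⟩,
    (F4m i j hij).1⟩

lemma F5 : RD ∅ {0, 1, 2, 5} ∧ RD ∅ {0, 1, 2, 8} := by
  decide +kernel

lemma gam1 (v : Fin 12) : gamma (del G {v}) = 3 :=
  gamma_eq (F3' v).1 (F3' v).2 (by simp) (F2 v)

lemma dom_zero (D : Finset (Fin 12)) : Dom G D ↔ RD ∅ D :=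
  ⟨fun h => ⟨fun v _ => Finset.notMem_empty v, fun v _ hv => h v hv⟩,
    fun h v hv => h.2 v (Finset.notMem_empty v) hv⟩

lemma gam0 : gamma G = 4 := by
  apply le_antisymm
  · apply Nat.sInf_le
    exact ⟨{0, 1, 2, 5}, (dom_zero _).2 F5.1, by decide⟩
  · have hne : {j | ∃ D, Dom G D ∧ D.card = j}.Nonempty :=
      ⟨_, {0, 1, 2, 5}, (dom_zero _).2 F5.1, rfl⟩
    obtain ⟨D, hD, hDc⟩ := Nat.sInf_mem hne
    by_contra hlt
    push Not at hlt
    have hDk : D.card ≤ 3 := by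
      rw [hDc]
      unfold gamma at hlt
      omega
    obtain ⟨D', h1, h2⟩ := RD_extend ((dom_zero D).1 hD) (m := 3) hDk (by simp)
    exact F1 D' (Finset.mem_powersetCard.2 ⟨Finset.subset_univ _, h1⟩) h2

lemma hypo : HypoUD G := by
  refine ⟨⟨{0, 1, 2, 5}, {0, 1, 2, 8}, by decide, ⟨(dom_zero _).2 F5.1, ?_⟩,
    ⟨(dom_zero _).2 F5.2, ?_⟩⟩, ?_⟩
  · rw [gam0]; decide
  · rw [gam0]; decide
  · intro v
    obtain ⟨W', hW'⟩ := exists_lift {v} (W v) (F3' v).1.1
    refine ⟨W', ⟨(dom_iff {v} W').2 (by rw [hW']; exact (F3' v).1), ?_⟩, ?_⟩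
    · rw [gam1 v, ← (F3' v).2, ← hW', Finset.card_map]
    · rintro D ⟨hD, hc⟩
      rw [gam1 v] at hc
      have h1 := (dom_iff {v} D).1 hD
      have h2 := F3 v (D.map (Function.Embedding.subtype _))
        (Finset.mem_powersetCard.2 ⟨Finset.subset_univ _, by rw [Finset.card_map]; exact hc⟩) h1
      rw [← hW'] at h2
      exact Finset.map_injective _ h2

lemma bicrit : DomBicritical G := by
  intro S hS
  obtain ⟨D, hD, hRD⟩ := F4 S (Finset.mem_powersetCard.2 ⟨Finset.subset_univ _, hS⟩)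
  obtain ⟨D', hD'⟩ := exists_lift S D hRD.1
  rw [gam0]
  have : gamma (del G S) ≤ 3 := by
    apply Nat.sInf_le
    refine ⟨D', (dom_iff S D').2 (by rw [hD']; exact hRD), ?_⟩
    rw [← (Finset.mem_powersetCard.1 hD).2, ← hD', Finset.card_map]
  omega

/-- **Q1 of MP_405fb9_co.**  There is a graph with at least three vertices which is both
hypo-unique-domination and domination bicritical. -/
theorem result : ∃ (n : ℕ) (G : SimpleGraph (Fin n)), 3 ≤ n ∧ HypoUD G ∧ DomBicritical G :=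
  ⟨12, G, by norm_num, hypo, bicrit⟩

end Pool.Agent.Results.MP_405fb9_co.Bicritical
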